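import Mathlib
import Pool.Agent.H523R3.TransMain
import Pool.Agent.Q141.TR.Circle
import Pool.Agent.Q141.TR.Chain

set_option autoImplicit false

/-!
# MP_ff81d5_co, Q2: the maximal transversal ratios are weakly increasing in the dimension

The definitions of `tauP`, `tauS` and of all notions they use are in `Pool.Agent.H523R3.TransDefs`.
-/

namespace Pool.Agent.Results.MP_ff81d5_co.Monotone

open Pool.Agent.H523R3.Trans Pool.Agent.Q141.TR Filter Topology

/-- ratios of simplicial `d`-polytopes with `n` vertices -/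
def RP (d n : ℕ) : Set ℝ := {t : ℝ | ∃ p : Fin n → E d,
    IsSimplicialPolytope d p ∧ t = transversalRatio (boundary p)}

/-- ratios of simplicial `(d-1)`-spheres with `n` vertices -/
def RS (d n : ℕ) : Set ℝ := {t : ℝ | ∃ Δ : Set (Finset (Fin n)),
    IsSimplicialSphere d Δ ∧ t = transversalRatio Δ}

theorem RP_sub (d : ℕ) (hd : 0 < d) (n : ℕ) : RP d n ⊆ RS d n := by
  rintro t ⟨p, hp, rfl⟩
  exact ⟨boundary p, isSimplicialSphere_boundary hd hp, rfl⟩

theorem RS_le (d n : ℕ) : ∀ t ∈ RS d n, t ≤ 1 := by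
  rintro t ⟨Δ, hΔ, rfl⟩
  exact transversalRatio_le_one hΔ.1

theorem RS_nonneg (d n : ℕ) : ∀ t ∈ RS d n, 0 ≤ t := by
  rintro t ⟨Δ, -, rfl⟩
  exact transversalRatio_nonneg Δ

/-- Upper bound for the limit superior of suprema. -/
theorem limsup_le_bound (A : ℕ → Set ℝ) (h0 : ∀ n, ∀ t ∈ A n, 0 ≤ t) (c : ℝ) (hc : 0 ≤ c)
    (h : ∀ᶠ n in atTop, ∀ t ∈ A n, t ≤ c) : limsup (fun n => sSup (A n)) atTop ≤ c := by
  have hb : IsBoundedUnder (· ≥ ·) atTop (fun n => sSup (A n)) :=
    isBoundedUnder_of ⟨0, fun n => Real.sSup_nonneg (h0 n)⟩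
  apply limsup_le_of_le hb.isCoboundedUnder_le
  filter_upwards [h] with n hn
  exact Real.sSup_le hn hc

theorem tauP_le_one (d : ℕ) (hd : 0 < d) : tauP d ≤ 1 :=
  limsup_le_bound (RP d) (fun n t ht => RS_nonneg d n t (RP_sub d hd n ht)) 1 zero_le_one
    (Eventually.of_forall fun n t ht => RS_le d n t (RP_sub d hd n ht))

theorem tauS_le_one (d : ℕ) : tauS d ≤ 1 :=
  limsup_le_bound (RS d) (RS_nonneg d) 1 zero_le_one (Eventually.of_forall fun n => RS_le d n)

theorem RS2_le (n : ℕ) (hn : 2 ≤ n) : ∀ t ∈ RS 2 n, t ≤ 1 / 2 + 1 / n := by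
  rintro t ⟨Δ, hΔ, rfl⟩
  have h := circle_bound hΔ hn
  have hnR : (0 : ℝ) < n := by
    have : 0 < n := by omega
    exact_mod_cast this
  unfold transversalRatio
  rw [div_le_iff₀ hnR]
  have h2 : (1 / 2 + 1 / (n : ℝ)) * n = n / 2 + 1 := by field_simp
  rw [h2]
  have h3 : 2 * transversalNumber Δ ≤ n + 1 := by omega
  have h4 : (2 : ℝ) * transversalNumber Δ ≤ n + 1 := by exact_mod_cast h3
  linarith

theorem two_le (A : ℕ → Set ℝ) (hA : ∀ n, A n ⊆ RS 2 n) :
    limsup (fun n => sSup (A n)) atTop ≤ 1 / 2 := by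
  apply le_of_forall_pos_le_add
  intro ε hε
  apply limsup_le_bound A (fun n t ht => RS_nonneg 2 n t (hA n ht)) _ (by positivity)
  obtain ⟨N, hN⟩ := exists_nat_gt (1 / ε)
  filter_upwards [eventually_ge_atTop (N + 2)] with n hn t ht
  have h1 := RS2_le n (by omega) t (hA n ht)
  have hnN : (N : ℝ) ≤ n := by
    have : N ≤ n := by omega
    exact_mod_cast this
  have hpos : (0 : ℝ) < n := lt_of_lt_of_le (lt_trans (by positivity) hN) hnN
  have h2 : 1 / (n : ℝ) ≤ ε := by
    rw [div_le_iff₀ hpos]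
    rw [div_lt_iff₀ hε] at hN
    nlinarith
  linarith

theorem three_ge (A : ℕ → Set ℝ) (hA : ∀ n, RP 3 n ⊆ A n) (hle : ∀ n, ∀ t ∈ A n, t ≤ 1) :
    1 / 2 ≤ limsup (fun n => sSup (A n)) atTop := by
  have hbdd : IsBoundedUnder (· ≤ ·) atTop (fun n => sSup (A n)) :=
    isBoundedUnder_of ⟨1, fun n => Real.sSup_le (hle n) zero_le_one⟩
  apply le_of_forall_pos_le_add
  intro ε hε
  have h1 : 1 / 2 - ε ≤ limsup (fun n => sSup (A n)) atTop := by
    apply le_limsup_of_frequently_le _ hbdd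
    rw [frequently_atTop]
    intro N
    obtain ⟨K, hK⟩ := exists_nat_gt (1 / ε)
    set m := N + K + 1 with hm
    obtain ⟨p, hp, hT⟩ := exists_polytope3 m (by omega)
    refine ⟨4 * m, by omega, ?_⟩
    have hmem : transversalRatio (boundary p) ∈ A (4 * m) := hA _ ⟨p, hp, rfl⟩
    refine le_trans ?_ (le_csSup ⟨1, fun x hx => hle _ x hx⟩ hmem)
    unfold transversalRatio
    have hmR : (0 : ℝ) < ((4 * m : ℕ) : ℝ) := by
      have : 0 < 4 * m := by omega
      exact_mod_cast this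
    rw [le_div_iff₀ hmR]
    have h2 : (2 : ℝ) * m ≤ transversalNumber (boundary p) + 2 := by exact_mod_cast hT
    have h3 : (K : ℝ) ≤ m := by
      have : K ≤ m := by omega
      exact_mod_cast this
    have h4 : 1 ≤ ε * m := by
      rw [div_lt_iff₀ hε] at hK
      nlinarith
    push_cast
    nlinarith
  linarith

/-- For every `d ≥ 2`: `τ^P_d ≤ τ^P_{d+1}` and `τ^S_d ≤ τ^S_{d+1}`. -/
theorem result : ∀ d : ℕ, 2 ≤ d → tauP d ≤ tauP (d + 1) ∧ tauS d ≤ tauS (d + 1) := by
  intro d hd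
  rcases Nat.lt_or_ge d 3 with h | h
  · have : d = 2 := by omega
    subst this
    constructor
    · exact (two_le (RP 2) (RP_sub 2 (by norm_num))).trans
        (three_ge (RP 3) (fun n => subset_rfl) (fun n t ht => RS_le 3 n t
          (RP_sub 3 (by norm_num) n ht)))
    · exact (two_le (RS 2) (fun n => subset_rfl)).trans
        (three_ge (RS 3) (RP_sub 3 (by norm_num)) (RS_le 3))
  · rw [tauP_eq_one (by omega : 4 ≤ d + 1), tauS_eq_one (by omega : 4 ≤ d + 1)]
    exact ⟨tauP_le_one d (by omega), tauS_le_one d⟩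

end Pool.Agent.Results.MP_ff81d5_co.Monotone
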